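import Mathlib
import Pool.Agent.H909Z.TkDefs
import Pool.Agent.H909Z.TkOne

set_option autoImplicit false

namespace Pool.Agent.Results.MP_8fdcc7_lc.AForcedStrict

open Pool.Agent.H909Z.Tk

/-- There is a forcing notion adding no reals, all of whose conditions force that some
nonprincipal ultrafilter on the natural numbers is not a p-point and is, under reverse almost
inclusion, strictly Tukey below itself under reverse inclusion. -/
theorem result : ∃ (P : Type) (_ : Preorder P), Nonempty P ∧ ∀ p : P, p ∈ NoNew P ∧
    p ∈ fex fun U : Set ℕ → Set P => fand (IsUltra U) (fand (fnot (PPoint U))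
      (fand (TukeyLE U SupStar U Sup) (fnot (TukeyLE U Sup U SupStar)))) :=
  One.main

end Pool.Agent.Results.MP_8fdcc7_lc.AForcedStrict
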